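import Mathlib

/-!
# Families of sets with prescribed intersections
-/

open Finset

namespace Pool.Agent.H18.GS

theorem disjSum_inter {α β : Type*} [DecidableEq α] [DecidableEq β] (s s' : Finset α)
    (t t' : Finset β) : (s.disjSum t) ∩ (s'.disjSum t') = (s ∩ s').disjSum (t ∩ t') := by
  ext x
  rcases x with x | x <;> simp

/-- a sunflower -/
theorem sunflower (n d t M : ℕ) (h : d + M * t ≤ n) :
    ∃ S : Fin M → Finset (Fin n), (∀ j, (S j).card = d + t) ∧
      ∀ j l, j ≠ l → (S j ∩ S l).card = d := by
  classical
  have hc : Fintype.card (Fin d ⊕ (Fin M × Fin t)) ≤ Fintype.card (Fin n) := by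
    simpa using h
  obtain ⟨ι⟩ := Function.Embedding.nonempty_of_card_le hc
  refine ⟨fun j => ((univ : Finset (Fin d)).disjSum (({j} : Finset (Fin M)) ×ˢ univ)).map ι,
    ?_, ?_⟩
  · intro j
    simp
  · intro j l hjl
    rw [← Finset.map_inter, disjSum_inter, Finset.card_map, Finset.card_disjSum]
    have : (({j} : Finset (Fin M)) ×ˢ (univ : Finset (Fin t))) ∩
        (({l} : Finset (Fin M)) ×ˢ (univ : Finset (Fin t))) = ∅ := by
      ext ⟨a, b⟩
      simp only [mem_inter, mem_product, mem_singleton, mem_univ, and_true, notMem_empty,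
        iff_false, not_and]
      rintro rfl
      exact hjl
    rw [this]
    simp

/-- families that realise a bipartite graph -/
theorem bip (n d t N : ℕ) (r : Fin N → Fin N → Prop) (hN : N < t)
    (h : d + 2 * t + 2 * (N * N) ≤ n) :
    ∃ X Y : Fin N → Finset (Fin n), (∀ u, (X u).card = d + t) ∧ (∀ w, (Y w).card = d + t) ∧
      (∀ u w, r u w → (X u ∩ Y w).card = d) ∧ (∀ u w, ¬ r u w → (X u ∩ Y w).card = d + 1) ∧
      (∀ u u', u ≠ u' → X u ≠ X u' ∧ d < (X u ∩ X u').card) ∧
      (∀ w w', w ≠ w' → Y w ≠ Y w' ∧ d < (Y w ∩ Y w').card) := by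
  classical
  have hc : Fintype.card (Fin d ⊕ (Fin (t - N) ⊕ (Fin (t - N) ⊕ (Fin N × Fin N × Bool)))) ≤
      Fintype.card (Fin n) := by
    simp only [Fintype.card_sum, Fintype.card_fin, Fintype.card_prod, Fintype.card_bool]
    have : N * (N * 2) = 2 * (N * N) := by ring
    rw [this]
    omega
  obtain ⟨ι⟩ := Function.Embedding.nonempty_of_card_le hc
  let PX : Fin N → Finset (Fin N × Fin N × Bool) := fun u => univ.image (fun w => (u, w, false))
  let PY : Fin N → Finset (Fin N × Fin N × Bool) :=
    fun w => univ.image (fun u => (u, w, decide (r u w)))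
  have cPX : ∀ u, (PX u).card = N := by
    intro u
    rw [Finset.card_image_of_injective]
    · simp
    · intro a b hab
      simpa using hab
  have cPY : ∀ u, (PY u).card = N := by
    intro u
    rw [Finset.card_image_of_injective]
    · simp
    · intro a b hab
      simp only [Prod.mk.injEq] at hab
      exact hab.1
  let X : Fin N → Finset (Fin n) := fun u =>
    ((univ : Finset (Fin d)).disjSum ((univ : Finset (Fin (t - N))).disjSum
      ((∅ : Finset (Fin (t - N))).disjSum (PX u)))).map ι
  let Y : Fin N → Finset (Fin n) := fun w =>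
    ((univ : Finset (Fin d)).disjSum ((∅ : Finset (Fin (t - N))).disjSum
      ((univ : Finset (Fin (t - N))).disjSum (PY w)))).map ι
  have cX : ∀ u, (X u).card = d + t := by
    intro u
    simp only [X, card_map, card_disjSum, card_univ, Fintype.card_fin, card_empty, cPX]
    omega
  have cY : ∀ u, (Y u).card = d + t := by
    intro u
    simp only [Y, card_map, card_disjSum, card_univ, Fintype.card_fin, card_empty, cPY]
    omega
  have iXX : ∀ u u', u ≠ u' → (X u ∩ X u').card = d + (t - N) := by
    intro u u' huu
    have : PX u ∩ PX u' = ∅ := by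
      ext ⟨a, b, c⟩
      simp only [PX, mem_inter, mem_image, mem_univ, true_and, Prod.mk.injEq, notMem_empty,
        iff_false, not_and]
      rintro ⟨w, rfl, -, -⟩ ⟨w', h', -, -⟩
      exact huu h'.symm
    simp only [X]
    rw [← Finset.map_inter, disjSum_inter, disjSum_inter, disjSum_inter, this]
    simp
  have iYY : ∀ u u', u ≠ u' → (Y u ∩ Y u').card = d + (t - N) := by
    intro u u' huu
    have : PY u ∩ PY u' = ∅ := by
      ext ⟨a, b, c⟩
      simp only [PY, mem_inter, mem_image, mem_univ, true_and, Prod.mk.injEq, notMem_empty,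
        iff_false, not_and]
      rintro ⟨w, -, rfl, -⟩ ⟨w', -, h', -⟩
      exact huu h'.symm
    simp only [Y]
    rw [← Finset.map_inter, disjSum_inter, disjSum_inter, disjSum_inter, this]
    simp
  have iXY : ∀ u w, (X u ∩ Y w).card = d + (PX u ∩ PY w).card := by
    intro u w
    simp only [X, Y]
    rw [← Finset.map_inter, disjSum_inter, disjSum_inter, disjSum_inter]
    simp
  refine ⟨X, Y, cX, cY, ?_, ?_, ?_, ?_⟩
  · intro u w hr
    rw [iXY]
    have : PX u ∩ PY w = ∅ := by
      ext ⟨a, b, c⟩
      simp only [PX, PY, mem_inter, mem_image, mem_univ, true_and, Prod.mk.injEq, notMem_empty,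
        iff_false, not_and]
      rintro ⟨w', rfl, rfl, rfl⟩ ⟨u', rfl, rfl, h'⟩
      simp [hr] at h'
    rw [this]
    simp
  · intro u w hr
    rw [iXY]
    have : PX u ∩ PY w = {(u, w, false)} := by
      ext ⟨a, b, c⟩
      simp only [PX, PY, mem_inter, mem_image, mem_univ, true_and, Prod.mk.injEq,
        mem_singleton]
      constructor
      · rintro ⟨⟨w', rfl, rfl, rfl⟩, ⟨u', rfl, rfl, h'⟩⟩
        exact ⟨rfl, rfl, rfl⟩
      · rintro ⟨rfl, rfl, rfl⟩
        exact ⟨⟨b, rfl, rfl, rfl⟩, ⟨a, rfl, rfl, by simp [hr]⟩⟩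
    rw [this]
    simp
  · intro u u' huu
    have h1 := iXX u u' huu
    refine ⟨?_, by omega⟩
    intro he
    rw [he, inter_self, cX] at h1
    have : 0 < N := u.pos
    omega
  · intro u u' huu
    have h1 := iYY u u' huu
    refine ⟨?_, by omega⟩
    intro he
    rw [he, inter_self, cY] at h1
    have : 0 < N := u.pos
    omega

theorem card_compl_inter {n : ℕ} (A B : Finset (Fin n)) :
    (Aᶜ ∩ Bᶜ).card + A.card + B.card = n + (A ∩ B).card := by
  classical
  rw [← Finset.compl_union, Finset.card_compl, Fintype.card_fin]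
  have h1 := Finset.card_union_add_card_inter A B
  have h2 : (A ∪ B).card ≤ n := by simpa using Finset.card_le_univ (A ∪ B)
  omega

theorem sunflower' (n d t o M : ℕ) (hn : n = d + 2 * t + o) (h : M * t ≤ d ∨ M * t ≤ o) :
    ∃ S : Fin M → Finset (Fin n), (∀ j, (S j).card = d + t) ∧
      ∀ j l, j ≠ l → (S j ∩ S l).card = d := by
  classical
  rcases h with h | h
  · obtain ⟨S, h1, h2⟩ := sunflower n o t M (by omega)
    refine ⟨fun j => (S j)ᶜ, fun j => ?_, fun j l hjl => ?_⟩
    · rw [card_compl, h1, Fintype.card_fin]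
      omega
    · have := card_compl_inter (S j) (S l)
      rw [h1, h1, h2 j l hjl] at this
      simp only
      omega
  · exact sunflower n d t M (by omega)

theorem bip' (n d t o N : ℕ) (hn : n = d + 2 * t + o) (r : Fin N → Fin N → Prop) (hN : N < t)
    (h : 2 * (N * N) ≤ d ∨ 2 * (N * N) ≤ o) :
    ∃ X Y : Fin N → Finset (Fin n), (∀ u, (X u).card = d + t) ∧ (∀ w, (Y w).card = d + t) ∧
      (∀ u w, r u w → (X u ∩ Y w).card = d) ∧ (∀ u w, ¬ r u w → (X u ∩ Y w).card = d + 1) ∧
      (∀ u u', u ≠ u' → X u ≠ X u' ∧ d < (X u ∩ X u').card) ∧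
      (∀ w w', w ≠ w' → Y w ≠ Y w' ∧ d < (Y w ∩ Y w').card) := by
  classical
  rcases h with h | h
  · obtain ⟨X, Y, h1, h2, h3, h4, h5, h6⟩ := bip n o t N r hN (by omega)
    refine ⟨fun u => (X u)ᶜ, fun w => (Y w)ᶜ, fun u => ?_, fun w => ?_, fun u w hr => ?_,
      fun u w hr => ?_, fun u u' hu => ?_, fun w w' hw => ?_⟩
    · rw [card_compl, h1, Fintype.card_fin]
      omega
    · rw [card_compl, h2, Fintype.card_fin]
      omega
    · have := card_compl_inter (X u) (Y w)
      rw [h1, h2, h3 u w hr] at this
      simp only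
      omega
    · have := card_compl_inter (X u) (Y w)
      rw [h1, h2, h4 u w hr] at this
      simp only
      omega
    · obtain ⟨h7, h8⟩ := h5 u u' hu
      have := card_compl_inter (X u) (X u')
      rw [h1, h1] at this
      refine ⟨fun he => h7 (compl_injective he), ?_⟩
      beta_reduce
      omega
    · obtain ⟨h7, h8⟩ := h6 w w' hw
      have := card_compl_inter (Y w) (Y w')
      rw [h2, h2] at this
      refine ⟨fun he => h7 (compl_injective he), ?_⟩
      beta_reduce
      omega
  · exact bip n d t N r hN (by omega)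

/-- two pairs of sets with the same cardinalities are equivalent under the symmetric group -/
theorem exists_perm {n : ℕ} (A B A' B' : Finset (Fin n)) (hA : A.card = A'.card)
    (hB : B.card = B'.card) (hAB : (A ∩ B).card = (A' ∩ B').card) :
    ∃ σ : Equiv.Perm (Fin n), A.map σ.toEmbedding = A' ∧ B.map σ.toEmbedding = B' := by
  classical
  let c : Finset (Fin n) → Finset (Fin n) → Fin n → Prop × Prop := fun A B x => (x ∈ A, x ∈ B)
  have key : ∀ z : Prop × Prop, Nonempty ({x // c A B x = z} ≃ {x // c A' B' x = z}) := by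
    have count : ∀ (A B : Finset (Fin n)) (p q : Prop),
        Fintype.card {x // c A B x = (p, q)} =
          if p then (if q then (A ∩ B).card else A.card - (A ∩ B).card)
          else (if q then B.card - (A ∩ B).card else n + (A ∩ B).card - A.card - B.card) := by
      intro A B p q
      rw [Fintype.card_subtype]
      by_cases hp : p <;> by_cases hq : q
      · simp only [hp, hq, if_true]
        congr 1
        ext x
        simp [c]
      · simp only [hp, hq, if_true, if_false]
        have : (univ.filter fun x => c A B x = (True, False)) = A \ B := by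
          ext x
          simp [c]
        rw [this, Finset.card_sdiff, Finset.inter_comm]
      · simp only [hp, hq, if_true, if_false]
        have : (univ.filter fun x => c A B x = (False, True)) = B \ A := by
          ext x
          simp [c]
          tauto
        rw [this, Finset.card_sdiff]
      · simp only [hp, hq, if_false]
        have : (univ.filter fun x => c A B x = (False, False)) = Aᶜ ∩ Bᶜ := by
          ext x
          simp [c]
        rw [this]
        have := card_compl_inter A B
        omega
    rintro ⟨p, q⟩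
    refine ⟨Fintype.equivOfCardEq ?_⟩
    rw [count, count, hA, hB, hAB]
  let e : ∀ z : Prop × Prop, {x // c A B x = z} ≃ {x // c A' B' x = z} :=
    fun z => (key z).some
  let σ : Fin n ≃ Fin n := Equiv.ofFiberEquiv e
  have hσ : ∀ x, c A' B' (σ x) = c A B x := fun x => Equiv.ofFiberEquiv_map e x
  refine ⟨σ, ?_, ?_⟩
  · ext y
    simp only [mem_map_equiv]
    have := hσ (σ.symm y)
    simp only [c, Equiv.apply_symm_apply, Prod.mk.injEq, eq_iff_iff] at this
    exact this.1.symm
  · ext y
    simp only [mem_map_equiv]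
    have := hσ (σ.symm y)
    simp only [c, Equiv.apply_symm_apply, Prod.mk.injEq, eq_iff_iff] at this
    exact this.2.symm

end Pool.Agent.H18.GS
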