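import Mathlib
import Pool.Agent.H18.GS.Families

/-!
# Graphs on tuples of sets invariant under a product of symmetric groups
-/

open Finset

namespace Pool.Agent.H18.GS

/-- the action of the permutations on the tuples of sets -/
def act {r : ℕ} {n : Fin r → ℕ} (σ : ∀ i, Equiv.Perm (Fin (n i)))
    (A : ∀ i, Finset (Fin (n i))) : ∀ i, Finset (Fin (n i)) :=
  fun i => (A i).map (σ i).toEmbedding

/-- the sizes of the members of a tuple of sets -/
def sizes {r : ℕ} {n : Fin r → ℕ} (A : ∀ i, Finset (Fin (n i))) : Fin r → ℕ :=
  fun i => (A i).card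

theorem adj_of_type {r : ℕ} {n : Fin r → ℕ} (G : SimpleGraph (∀ i, Finset (Fin (n i))))
    (hG : ∀ (σ : ∀ i, Equiv.Perm (Fin (n i))) (A B : ∀ i, Finset (Fin (n i))),
      G.Adj A B → G.Adj (act σ A) (act σ B))
    (A B A' B' : ∀ i, Finset (Fin (n i))) (hA : ∀ i, (A i).card = (A' i).card)
    (hB : ∀ i, (B i).card = (B' i).card) (hAB : ∀ i, (A i ∩ B i).card = (A' i ∩ B' i).card)
    (h : G.Adj A B) : G.Adj A' B' := by
  choose σ h1 h2 using fun i => exists_perm (A i) (B i) (A' i) (B' i) (hA i) (hB i) (hAB i)
  have h3 : act σ A = A' := funext h1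
  have h4 : act σ B = B' := funext h2
  rw [← h3, ← h4]
  exact hG σ A B h

theorem pattern (n q : ℕ) (A B : Finset (Fin n)) (h : ∀ x : Fin n, x.1 < q → (x ∈ A ↔ x ∈ B)) :
    A = B ∨ q ≤ (A ∩ B).card + (Aᶜ ∩ Bᶜ).card := by
  by_cases hn : n ≤ q
  · left
    ext x
    exact h x (lt_of_lt_of_le x.2 hn)
  · right
    push Not at hn
    have h1 : ((univ : Finset (Fin q)).map (Fin.castLEEmb hn.le)) ⊆ (A ∩ B) ∪ (Aᶜ ∩ Bᶜ) := by
      intro x hx
      simp only [mem_map, mem_univ, true_and] at hx
      obtain ⟨y, rfl⟩ := hx
      have := h (Fin.castLEEmb hn.le y) (by simp)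
      simp only [mem_union, mem_inter, mem_compl]
      tauto
    have h2 := card_le_card h1
    rw [card_map, card_univ, Fintype.card_fin] at h2
    exact h2.trans (card_union_le _ _)

theorem main (m : ℕ) (F : SimpleGraph (Fin m)) (hF : F.Colorable 2) (r : ℕ) (n : Fin r → ℕ)
    (G : SimpleGraph (∀ i, Finset (Fin (n i))))
    (hG : ∀ (σ : ∀ i, Equiv.Perm (Fin (n i))) (A B : ∀ i, Finset (Fin (n i))),
      G.Adj A B → G.Adj (act σ A) (act σ B))
    (P : Finset (Fin r → ℕ)) (hFG : ¬ F.IsIndContained (G.induce {A | sizes A ∈ P})) (k : ℕ)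
    (hk : ∀ f : Fin (k + 1) → {A : ∀ i, Finset (Fin (n i)) // sizes A ∈ P},
      ¬ ∀ i j, i ≠ j → G.Adj (f i).1 (f j).1) :
    (G.induce {A | sizes A ∈ P}).Colorable
      (P.card * (2 ^ (2 * m * (k + 1) + 4 * (m * m))) ^ r) := by
  classical
  set q := 2 * m * (k + 1) + 4 * (m * m) with hq
  -- the colouring
  let pat : (∀ i, Finset (Fin (n i))) → Fin r → Finset (Fin q) := fun A i =>
    univ.filter (fun j : Fin q => ∃ h : j.1 < n i, (⟨j.1, h⟩ : Fin (n i)) ∈ A i)
  let col : {A : ∀ i, Finset (Fin (n i)) // sizes A ∈ P} → P × (Fin r → Finset (Fin q)) :=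
    fun A => (⟨sizes A.1, A.2⟩, pat A.1)
  have hcard : Fintype.card (P × (Fin r → Finset (Fin q))) = P.card * (2 ^ q) ^ r := by
    simp
  rw [← hcard]
  refine (SimpleGraph.Coloring.mk (G := G.induce {A | sizes A ∈ P}) (α := P × (Fin r → Finset (Fin q)))
    col ?_).colorable
  rintro ⟨A, hAP⟩ ⟨B, hBP⟩ hadj hcol
  simp only [SimpleGraph.comap_adj, Function.Embedding.subtype_apply] at hadj
  simp only [col, Prod.mk.injEq, Subtype.mk.injEq] at hcol
  obtain ⟨hsize, hpat⟩ := hcol
  simp only [Set.mem_ofPred_eq] at hAP hBP
  set p := sizes A with hp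
  have hAc : ∀ i, (A i).card = p i := fun i => rfl
  have hBc : ∀ i, (B i).card = p i := fun i => (congrFun hsize i).symm
  have hmem : ∀ i (x : Fin (n i)), x.1 < q → (x ∈ A i ↔ x ∈ B i) := by
    intro i x hx
    have h1 := congrFun hpat i
    simp only [pat] at h1
    have h2 := Finset.ext_iff.mp h1 ⟨x.1, hx⟩
    simp only [mem_filter, mem_univ, true_and] at h2
    constructor
    · intro h3
      obtain ⟨_, h4⟩ := h2.mp ⟨x.2, h3⟩
      exact h4
    · intro h3
      obtain ⟨_, h4⟩ := h2.mpr ⟨x.2, h3⟩
      exact h4
  -- a minimal pair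
  let S : Set ℕ := {s | ∃ A' B' : ∀ i, Finset (Fin (n i)), G.Adj A' B' ∧ (∀ i, (A' i).card = p i) ∧
    (∀ i, (B' i).card = p i) ∧ (∀ i, (A i ∩ B i).card ≤ (A' i ∩ B' i).card) ∧
    s = ∑ i, (p i - (A' i ∩ B' i).card)}
  have hS : S.Nonempty := ⟨_, A, B, hadj, hAc, hBc, fun i => le_rfl, rfl⟩
  obtain ⟨A', B', hadj', hA', hB', hle', hs'⟩ := Nat.sInf_mem hS
  have hdle : ∀ i, (A' i ∩ B' i).card ≤ p i := by
    intro i
    rw [← hA' i]
    exact card_le_card inter_subset_left
  have hmin : ∀ A'' B'' : ∀ i, Finset (Fin (n i)), G.Adj A'' B'' → (∀ i, (A'' i).card = p i) →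
      (∀ i, (B'' i).card = p i) → (∀ i, (A' i ∩ B' i).card ≤ (A'' i ∩ B'' i).card) →
      ∀ i, (A' i ∩ B' i).card = (A'' i ∩ B'' i).card := by
    intro A'' B'' h1 h2 h3 h4 i
    by_contra h5
    have h6 : (A' i ∩ B' i).card < (A'' i ∩ B'' i).card := lt_of_le_of_ne (h4 i) h5
    have h7 : (∑ i, (p i - (A'' i ∩ B'' i).card)) ∈ S :=
      ⟨A'', B'', h1, h2, h3, fun i => (hle' i).trans (h4 i), rfl⟩
    have h8 := Nat.sInf_le h7
    rw [hs'] at h8
    have h9 : ∑ i, (p i - (A'' i ∩ B'' i).card) < ∑ i, (p i - (A' i ∩ B' i).card) := by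
      refine Finset.sum_lt_sum (fun j _ => Nat.sub_le_sub_left (h4 j) _) ⟨i, mem_univ _, ?_⟩
      have : (A'' i ∩ B'' i).card ≤ p i := by
        rw [← h2 i]
        exact card_le_card inter_subset_left
      omega
    omega
  -- parameters
  let d : Fin r → ℕ := fun i => (A' i ∩ B' i).card
  let t : Fin r → ℕ := fun i => p i - d i
  let o : Fin r → ℕ := fun i => ((A' i)ᶜ ∩ (B' i)ᶜ).card
  have hpt : ∀ i, p i = d i + t i := by
    intro i
    have := hdle i
    simp only [t, d]
    omega
  have hno : ∀ i, n i = d i + 2 * t i + o i := by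
    intro i
    have h1 := card_compl_inter (A' i) (B' i)
    rw [hA', hB'] at h1
    have := hdle i
    simp only [t, d, o]
    omega
  have hlarge : ∀ i, 0 < t i → q ≤ d i + o i := by
    intro i hi
    have h1 := hle' i
    have hne : A i ≠ B i := by
      intro he
      rw [← he, inter_self, hAc] at h1
      simp only [t, d] at hi
      omega
    rcases pattern (n i) q (A i) (B i) (hmem i) with h2 | h2
    · exact absurd h2 hne
    · have h3 := card_compl_inter (A i) (B i)
      rw [hAc, hBc] at h3
      have h4 := hno i
      have h5 := hpt i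
      simp only [d] at h4 h5 ⊢
      omega
  by_cases hbig : ∃ i, m < t i
  · -- the bipartite graph
    obtain ⟨i0, hi0⟩ := hbig
    have hl := hlarge i0 (by omega)
    have hcond : 2 * (m * m) ≤ d i0 ∨ 2 * (m * m) ≤ o i0 := by
      by_contra hcon
      push Not at hcon
      have : 4 * (m * m) ≤ q := by
        rw [hq]
        exact Nat.le_add_left _ _
      omega
    obtain ⟨X, Y, cX, cY, iXY, iXY', iXX, iYY⟩ :=
      bip' (n i0) (d i0) (t i0) (o i0) m (hno i0) F.Adj hi0 hcond
    obtain ⟨C⟩ := hF
    apply hFG
    let φ : Fin m → ∀ i, Finset (Fin (n i)) := fun u =>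
      if C u = 0 then Function.update A' i0 (X u) else Function.update B' i0 (Y u)
    have hC1 : ∀ u, C u ≠ 0 → C u = 1 := by
      intro u hu
      have := (C u).2
      ext
      have h2 : (C u).1 ≠ 0 := fun h => hu (Fin.ext h)
      simp only [Fin.isValue, Fin.coe_ofNat_eq_mod]
      omega
    have hφs : ∀ u i, (φ u i).card = p i := by
      intro u i
      by_cases hu : C u = 0
      · simp only [φ, hu, if_true]
        by_cases hi : i = i0
        · subst hi
          rw [Function.update_self, cX, ← hpt]
        · rw [Function.update_of_ne hi, hA']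
      · simp only [φ, hu, if_false]
        by_cases hi : i = i0
        · subst hi
          rw [Function.update_self, cY, ← hpt]
        · rw [Function.update_of_ne hi, hB']
    have hφs' : ∀ u, sizes (φ u) = p := fun u => funext (hφs u)
    -- cross pairs
    have cross : ∀ u v, C u = 0 → C v = 1 → (G.Adj (φ u) (φ v) ↔ F.Adj u v) ∧ φ u ≠ φ v := by
      intro u v hu hv
      have hv0 : C v ≠ 0 := by rw [hv]; decide
      have e1 : φ u = Function.update A' i0 (X u) := by simp only [φ, hu, if_true]
      have e2 : φ v = Function.update B' i0 (Y v) := by simp only [φ, hv0, if_false]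
      have hi : ∀ i, i ≠ i0 → (φ u i ∩ φ v i).card = (A' i ∩ B' i).card := by
        intro i hi
        rw [e1, e2, Function.update_of_ne hi, Function.update_of_ne hi]
      have hi0' : (φ u i0 ∩ φ v i0).card = (X u ∩ Y v).card := by
        rw [e1, e2, Function.update_self, Function.update_self]
      by_cases huv : F.Adj u v
      · have hadj2 : G.Adj (φ u) (φ v) := by
          refine adj_of_type G hG A' B' _ _ (fun i => by rw [hA', hφs]) (fun i => by rw [hB', hφs])
            (fun i => ?_) hadj'
          by_cases h : i = i0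
          · subst h
            rw [hi0', iXY u v huv]
          · rw [hi i h]
        exact ⟨⟨fun _ => huv, fun _ => hadj2⟩, hadj2.ne⟩
      · refine ⟨⟨fun h => ?_, fun h => absurd h huv⟩, ?_⟩
        · exfalso
          have := hmin (φ u) (φ v) h (hφs u) (hφs v) (fun i => ?_) i0
          · rw [hi0', iXY' u v huv] at this
            simp only [d] at this
            omega
          · by_cases h : i = i0
            · subst h
              rw [hi0', iXY' u v huv]
              simp only [d]
              omega
            · rw [hi i h]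
        · intro he
          have h1 : φ u i0 = φ v i0 := by rw [he]
          have h2 := hi0'
          rw [← h1, inter_self, iXY' u v huv, hφs, hpt] at h2
          have h3 : 0 < m := u.pos
          omega
    have same : ∀ u v, u ≠ v → C u = C v → ¬ G.Adj (φ u) (φ v) ∧ φ u ≠ φ v := by
      intro u v huv hCC
      have key : (∀ i, i ≠ i0 → (A' i ∩ B' i).card ≤ (φ u i ∩ φ v i).card) ∧
          (A' i0 ∩ B' i0).card < (φ u i0 ∩ φ v i0).card ∧ φ u i0 ≠ φ v i0 := by
        by_cases hu : C u = 0
        · have hv : C v = 0 := by rw [← hCC, hu]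
          have e1 : φ u = Function.update A' i0 (X u) := by simp only [φ, hu, if_true]
          have e2 : φ v = Function.update A' i0 (X v) := by simp only [φ, hv, if_true]
          rw [e1, e2]
          refine ⟨fun i hi => ?_, ?_, ?_⟩
          · rw [Function.update_of_ne hi, Function.update_of_ne hi, inter_self, hA']
            exact hdle i
          · rw [Function.update_self, Function.update_self]
            exact (iXX u v huv).2
          · rw [Function.update_self, Function.update_self]
            exact (iXX u v huv).1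
        · have hv : ¬ C v = 0 := by rw [← hCC]; exact hu
          have e1 : φ u = Function.update B' i0 (Y u) := by simp only [φ, hu, if_false]
          have e2 : φ v = Function.update B' i0 (Y v) := by simp only [φ, hv, if_false]
          rw [e1, e2]
          refine ⟨fun i hi => ?_, ?_, ?_⟩
          · rw [Function.update_of_ne hi, Function.update_of_ne hi, inter_self, hB']
            exact hdle i
          · rw [Function.update_self, Function.update_self]
            exact (iYY u v huv).2
          · rw [Function.update_self, Function.update_self]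
            exact (iYY u v huv).1
      obtain ⟨k1, k2, k3⟩ := key
      refine ⟨fun h => ?_, fun he => k3 (by rw [he])⟩
      have := hmin (φ u) (φ v) h (hφs u) (hφs v) (fun i => ?_) i0
      · omega
      · by_cases h : i = i0
        · subst h
          exact k2.le
        · exact k1 i h
    refine ⟨⟨⟨fun u => ⟨φ u, by rw [Set.mem_ofPred_eq, hφs']; exact hAP⟩, ?_⟩, ?_⟩⟩
    · intro u v he
      by_contra huv
      have he' : φ u = φ v := congrArg Subtype.val he
      by_cases hCC : C u = C v
      · exact (same u v huv hCC).2 he'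
      · by_cases hu : C u = 0
        · have hv : C v = 1 := hC1 v (by rw [← hu]; exact fun h => hCC h.symm)
          exact (cross u v hu hv).2 he'
        · have hu1 := hC1 u hu
          have hv : C v = 0 := by
            by_contra hv
            exact hCC (hu1.trans (hC1 v hv).symm)
          exact (cross v u hv hu1).2 he'.symm
    · intro u v
      simp only [Function.Embedding.coeFn_mk, SimpleGraph.comap_adj,
        Function.Embedding.subtype_apply]
      by_cases huv : u = v
      · subst huv
        simp
      by_cases hCC : C u = C v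
      · constructor
        · intro h
          exact absurd h (same u v huv hCC).1
        · intro h
          exact absurd hCC (C.valid h)
      · by_cases hu : C u = 0
        · have hv : C v = 1 := hC1 v (by rw [← hu]; exact fun h => hCC h.symm)
          exact (cross u v hu hv).1
        · have hu1 := hC1 u hu
          have hv : C v = 0 := by
            by_contra hv
            exact hCC (hu1.trans (hC1 v hv).symm)
          rw [G.adj_comm, F.adj_comm]
          exact (cross v u hv hu1).1
  · -- the clique
    exfalso
    push Not at hbig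
    have hex : ∀ i, ∃ T : Fin (k + 1) → Finset (Fin (n i)), (∀ j, (T j).card = p i) ∧
        ∀ j l, j ≠ l → (T j ∩ T l).card = d i := by
      intro i
      rcases Nat.eq_zero_or_pos (t i) with h0 | h0
      · refine ⟨fun _ => A' i, fun _ => hA' i, fun j l _ => ?_⟩
        rw [inter_self, hA']
        have := hpt i
        omega
      · have hl := hlarge i h0
        have hcond : (k + 1) * t i ≤ d i ∨ (k + 1) * t i ≤ o i := by
          by_contra hcon
          push Not at hcon
          have h1 : (k + 1) * t i ≤ (k + 1) * m := Nat.mul_le_mul_left _ (hbig i)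
          have h2 : 2 * ((k + 1) * m) ≤ q := by
            rw [hq]
            have : 2 * m * (k + 1) = 2 * ((k + 1) * m) := by ring
            omega
          omega
        obtain ⟨T, h1, h2⟩ := sunflower' (n i) (d i) (t i) (o i) (k + 1) (hno i) hcond
        exact ⟨T, fun j => by rw [h1, ← hpt], h2⟩
    choose T hT1 hT2 using hex
    refine hk (fun j => ⟨fun i => T i j, ?_⟩) ?_
    · have : sizes (fun i => T i j) = p := funext fun i => hT1 i j
      rw [this]
      exact hAP
    · intro j l hjl
      exact adj_of_type G hG A' B' _ _ (fun i => by rw [hA', hT1]) (fun i => by rw [hB', hT1])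
        (fun i => by rw [hT2 i j l hjl]) hadj'

end Pool.Agent.H18.GS
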